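import Pool.Agent.N763.QB.Loc

/-!
# Project K15 (helper875): points over the completions at the places over `3`

The points with `x = 1/9, 36, -1296, -4, 3` on `y² = x (x + 9) (x - 16)`. By helper286.
-/

set_option autoImplicit false

open NumberField IsDedekindDomain

namespace Pool.Agent.N286.K15

open Pool.Agent.N763.QB (io sqL)

section

variable {K : Type} [Field K] [NumberField K] {w : HeightOneSpectrum (𝓞 K)}

lemma io_z (z : ℤ) : io w (z : 𝓞 K) = (z : w.adicCompletion K) := map_intCast _ _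

lemma notMem (h3 : (3 : 𝓞 K) ∈ w.asIdeal) {z : ℤ} (hz : ¬ (3 : ℤ) ∣ z) :
    ((z : ℤ) : 𝓞 K) ∉ w.asIdeal := by
  intro h
  have hcop : IsCoprime (3 : ℤ) z :=
    (Nat.prime_iff_prime_int.1 (by norm_num : Nat.Prime 3)).coprime_iff_not_dvd.2
      (by exact_mod_cast hz)
  obtain ⟨s, t, hst⟩ := hcop
  apply w.isPrime.ne_top
  rw [Ideal.eq_top_iff_one]
  have h4 := congrArg (fun z : ℤ => (z : 𝓞 K)) hst
  push_cast at h4
  rw [← h4]
  exact w.asIdeal.add_mem (w.asIdeal.mul_mem_left _ h3) (w.asIdeal.mul_mem_left _ h)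

lemma int_ne {z : ℤ} (hz : z ≠ 0) : (z : w.adicCompletion K) ≠ 0 := by
  intro h
  have h1 : ((z : ℤ) : K) ≠ 0 := Int.cast_ne_zero.2 hz
  apply h1
  apply (algebraMap K (w.adicCompletion K)).injective
  rw [map_intCast, map_zero]
  exact h

/-- the integers `1` modulo `3` are squares -/
lemma sq1 (h3 : (3 : 𝓞 K) ∈ w.asIdeal) {z : ℤ} (hz : z % 3 = 1) :
    IsSquare (z : w.adicCompletion K) := by
  have h2 : (2 : 𝓞 K) ∉ w.asIdeal := by
    have := notMem h3 (z := 2) (by norm_num)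
    exact_mod_cast this
  have h1 := notMem h3 (z := z) (by omega)
  obtain ⟨k, hk⟩ : ∃ k : ℤ, z = 1 + k * 3 := ⟨z / 3, by omega⟩
  have h4 := sqL h2 h1 (y := 1) (by
    rw [hk]
    push_cast
    have e : (1 : 𝓞 K) + (k : 𝓞 K) * 3 - 1 * 1 = (k : 𝓞 K) * 3 := by ring
    rw [e]
    exact w.asIdeal.mul_mem_left _ h3)
  rwa [io_z] at h4

/-- up to sign the integers prime to `3` are squares -/
lemma sq_pm (h3 : (3 : 𝓞 K) ∈ w.asIdeal) {z : ℤ} (hz : ¬ (3 : ℤ) ∣ z) :
    IsSquare (z : w.adicCompletion K) ∨ IsSquare (-(z : w.adicCompletion K)) := by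
  have h : z % 3 = 1 ∨ (-z) % 3 = 1 := by omega
  rcases h with h | h
  · exact Or.inl (sq1 h3 h)
  · right
    have := sq1 h3 h
    push_cast at this
    exact this

/-- `a b` and `b` nonzero squares -/
lemma sq_div {F : Type} [Field F] {a r : F} (hr : r ≠ 0) (h : IsSquare (a * r ^ 2)) :
    IsSquare a := by
  obtain ⟨t, ht⟩ := h
  refine ⟨t / r, ?_⟩
  rw [div_mul_div_comm, ← ht]
  field_simp

/-- the point with `x = 1 / 9` -/
lemma p1 (h3 : (3 : 𝓞 K) ∈ w.asIdeal) {a b : w.adicCompletion K} (ha : IsSquare a)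
    (hb : IsSquare b) :
    ∃ x y : w.adicCompletion K, y ≠ 0 ∧ y ^ 2 = x * (x + 9) * (x - 16) ∧ IsSquare (x * a) ∧
      IsSquare ((x + 9) * b) := by
  obtain ⟨s, hs⟩ := sq1 (w := w) h3 (z := 82) (by norm_num)
  obtain ⟨t, ht⟩ := sq1 (w := w) h3 (z := -143) (by norm_num)
  have n82 := int_ne (w := w) (z := 82) (by norm_num)
  have n143 := int_ne (w := w) (z := -143) (by norm_num)
  have n9 := int_ne (w := w) (z := 9) (by norm_num)
  have n3 := int_ne (w := w) (z := 3) (by norm_num)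
  rw [hs] at n82
  rw [ht] at n143
  push_cast at hs ht n9 n3
  obtain ⟨α, rfl⟩ := ha
  obtain ⟨β, rfl⟩ := hb
  have n27 : (27 : w.adicCompletion K) ≠ 0 := by
    have := int_ne (w := w) (z := 27) (by norm_num)
    push_cast at this
    exact this
  refine ⟨1 / 9, s * t / 27, ?_, ?_, ⟨α / 3, ?_⟩, ⟨s * β / 3, ?_⟩⟩
  · exact div_ne_zero (mul_ne_zero (left_ne_zero_of_mul n82) (left_ne_zero_of_mul n143)) n27
  · have e : (s * t / 27) ^ 2 = (s * s) * (t * t) / 27 ^ 2 := by rw [div_pow]; ring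
    rw [e, ← hs, ← ht]
    field_simp
    norm_num
  · have e : (3 : w.adicCompletion K) * 3 = 9 := by norm_num
    rw [div_mul_div_comm, e, one_div, mul_comm, div_eq_mul_inv]
  · have e : (3 : w.adicCompletion K) * 3 = 9 := by norm_num
    have e2 : s * β * (s * β) = 82 * (β * β) := by rw [hs]; ring
    have e3 : (1 / 9 + 9 : w.adicCompletion K) = 82 / 9 := by
      rw [eq_div_iff n9, add_mul, one_div, inv_mul_cancel₀ n9]
      norm_num
    rw [div_mul_div_comm, e, e2, e3, div_mul_eq_mul_div]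

/-- the point with `x = 36` -/
lemma p2 (h3 : (3 : 𝓞 K) ∈ w.asIdeal) {a b : w.adicCompletion K} (ha : IsSquare a)
    (hb : IsSquare (-b)) :
    ∃ x y : w.adicCompletion K, y ≠ 0 ∧ y ^ 2 = x * (x + 9) * (x - 16) ∧ IsSquare (x * a) ∧
      IsSquare ((x + 9) * b) := by
  obtain ⟨s, hs⟩ := sq1 (w := w) h3 (z := -5) (by norm_num)
  have n180 := int_ne (w := w) (z := 180) (by norm_num)
  push_cast at hs n180
  obtain ⟨α, rfl⟩ := ha
  obtain ⟨β, hβ⟩ := hb
  refine ⟨36, 180, n180, by norm_num, ⟨6 * α, by ring⟩, ⟨3 * s * β, ?_⟩⟩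
  linear_combination (-9 * b) * hs + 9 * (s * s) * hβ

/-- the point with `x = -1296` -/
lemma p3 (h3 : (3 : 𝓞 K) ∈ w.asIdeal) {a b : w.adicCompletion K} (ha : IsSquare (-a))
    (hb : IsSquare b) :
    ∃ x y : w.adicCompletion K, y ≠ 0 ∧ y ^ 2 = x * (x + 9) * (x - 16) ∧ IsSquare (x * a) ∧
      IsSquare ((x + 9) * b) := by
  obtain ⟨s, hs⟩ := sq1 (w := w) h3 (z := 82) (by norm_num)
  obtain ⟨t, ht⟩ := sq1 (w := w) h3 (z := -143) (by norm_num)
  have n82 := int_ne (w := w) (z := 82) (by norm_num)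
  have n143 := int_ne (w := w) (z := -143) (by norm_num)
  have n432 := int_ne (w := w) (z := 432) (by norm_num)
  rw [hs] at n82
  rw [ht] at n143
  push_cast at hs ht n432
  obtain ⟨α, hα⟩ := ha
  obtain ⟨β, rfl⟩ := hb
  refine ⟨-1296, 432 * (s * t), ?_, ?_, ⟨36 * α, ?_⟩, ⟨3 * t * β, ?_⟩⟩
  · exact mul_ne_zero n432 (mul_ne_zero (left_ne_zero_of_mul n82) (left_ne_zero_of_mul n143))
  · have e : (432 * (s * t)) ^ 2 = 432 ^ 2 * ((s * s) * (t * t)) := by ring
    rw [e, ← hs, ← ht]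
    norm_num
  · linear_combination 1296 * hα
  · linear_combination (9 * (β * β)) * ht

/-- the point with `x = -4` -/
lemma p4 (h3 : (3 : 𝓞 K) ∈ w.asIdeal) {a b : w.adicCompletion K} (ha : IsSquare (-a))
    (hb : IsSquare (-b)) :
    ∃ x y : w.adicCompletion K, y ≠ 0 ∧ y ^ 2 = x * (x + 9) * (x - 16) ∧ IsSquare (x * a) ∧
      IsSquare ((x + 9) * b) := by
  obtain ⟨s, hs⟩ := sq1 (w := w) h3 (z := -5) (by norm_num)
  have n20 := int_ne (w := w) (z := 20) (by norm_num)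
  push_cast at hs n20
  obtain ⟨α, hα⟩ := ha
  obtain ⟨β, hβ⟩ := hb
  refine ⟨-4, 20, n20, by norm_num, ⟨2 * α, ?_⟩, ⟨s * β, ?_⟩⟩
  · linear_combination 4 * hα
  · linear_combination (-b) * hs + (s * s) * hβ

/-- the point with `x = 3` -/
lemma p5 {a b : w.adicCompletion K} (h13 : IsSquare (-13 : w.adicCompletion K)) (ha : IsSquare a)
    (hb : IsSquare b) :
    ∃ x y : w.adicCompletion K, y ≠ 0 ∧ y ^ 2 = x * (x + 9) * (x - 16) ∧ IsSquare (x * (3 * a)) ∧
      IsSquare ((x + 9) * (3 * b)) := by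
  obtain ⟨s, hs⟩ := h13
  have n13 := int_ne (w := w) (z := -13) (by norm_num)
  have n6 := int_ne (w := w) (z := 6) (by norm_num)
  push_cast at n13 n6
  rw [hs] at n13
  obtain ⟨α, rfl⟩ := ha
  obtain ⟨β, rfl⟩ := hb
  refine ⟨3, 6 * s, mul_ne_zero n6 (left_ne_zero_of_mul n13), ?_, ⟨3 * α, by ring⟩,
    ⟨6 * β, by ring⟩⟩
  linear_combination (-36 : w.adicCompletion K) * hs

/-- points at the places over `3` -/
theorem core (h3 : (3 : 𝓞 K) ∈ w.asIdeal) {m : ℤ} (hm : Squarefree m) {r : K}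
    (hr : r ^ 2 = (m : K)) {a b : ℤ} (ha : Squarefree a) (hb : Squarefree b)
    (c1 : m % 3 = 1 → ¬ (3 : ℤ) ∣ a ∧ ¬ (3 : ℤ) ∣ b)
    (c2 : m % 3 = 2 → ((3 : ℤ) ∣ a ↔ (3 : ℤ) ∣ b)) :
    ∃ x y : w.adicCompletion K, y ≠ 0 ∧ y ^ 2 = x * (x + 9) * (x - 16) ∧
      IsSquare (x * (a : w.adicCompletion K)) ∧ IsSquare ((x + 9) * (b : w.adicCompletion K)) := by
  obtain ⟨ρ, hρ⟩ : ∃ ρ : w.adicCompletion K, ρ ^ 2 = (m : w.adicCompletion K) :=
    ⟨algebraMap K (w.adicCompletion K) r, by rw [← map_pow, hr, map_intCast]⟩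
  have hm0 : (m : w.adicCompletion K) ≠ 0 := int_ne hm.ne_zero
  have hρ0 : ρ ≠ 0 := by
    rintro rfl
    apply hm0
    rw [← hρ]
    ring
  have sqf : ∀ z : ℤ, Squarefree z → (3 : ℤ) ∣ z → ∃ z', z = 3 * z' ∧ ¬ (3 : ℤ) ∣ z' := by
    rintro z hz ⟨z', rfl⟩
    refine ⟨z', rfl, fun h => ?_⟩
    have := hz 3 (mul_dvd_mul_left _ h)
    norm_num [Int.isUnit_iff] at this
  have main : (∀ z : ℤ, z = a ∨ z = b →
      IsSquare (z : w.adicCompletion K) ∨ IsSquare (-(z : w.adicCompletion K))) →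
      ∃ x y : w.adicCompletion K, y ≠ 0 ∧ y ^ 2 = x * (x + 9) * (x - 16) ∧
      IsSquare (x * (a : w.adicCompletion K)) ∧ IsSquare ((x + 9) * (b : w.adicCompletion K)) := by
    intro h
    rcases h a (Or.inl rfl) with h1 | h1 <;> rcases h b (Or.inr rfl) with h2 | h2
    · exact p1 h3 h1 h2
    · exact p2 h3 h1 h2
    · exact p3 h3 h1 h2
    · exact p4 h3 h1 h2
  have h012 : m % 3 = 0 ∨ m % 3 = 1 ∨ m % 3 = 2 := by omega
  rcases h012 with h | h | h
  · -- ramified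
    obtain ⟨m', rfl, hm'⟩ := sqf m hm (by omega)
    apply main
    intro z hz
    have hzs : Squarefree z := by
      rcases hz with rfl | rfl
      · exact ha
      · exact hb
    by_cases hd : (3 : ℤ) ∣ z
    · obtain ⟨z', rfl, hz'⟩ := sqf z hzs hd
      have hzm : ¬ (3 : ℤ) ∣ z' * m' := by
        intro h4
        rcases Int.prime_three.dvd_or_dvd h4 with h5 | h5
        · exact hz' h5
        · exact hm' h5
      rcases sq_pm (w := w) h3 hzm with ⟨t, ht⟩ | ⟨t, ht⟩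
      · left
        apply sq_div hρ0
        rw [hρ]
        push_cast at ht ⊢
        exact ⟨3 * t, by linear_combination 9 * ht⟩
      · right
        apply sq_div hρ0
        rw [hρ]
        push_cast at ht ⊢
        exact ⟨3 * t, by linear_combination 9 * ht⟩
    · exact sq_pm h3 hd
  · -- split
    obtain ⟨h1, h2⟩ := c1 h
    apply main
    rintro z (rfl | rfl)
    · exact sq_pm h3 h1
    · exact sq_pm h3 h2
  · -- inert
    have hneg : IsSquare (-1 : w.adicCompletion K) := by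
      have h4 := sq1 (w := w) h3 (z := -m) (by omega)
      apply sq_div hρ0
      rw [hρ]
      push_cast at h4
      rwa [neg_one_mul]
    have hall : ∀ z : ℤ, ¬ (3 : ℤ) ∣ z → IsSquare (z : w.adicCompletion K) := by
      intro z hz
      rcases sq_pm (w := w) h3 hz with h4 | h4
      · exact h4
      · have := hneg.mul h4
        rwa [neg_one_mul, neg_neg] at this
    by_cases hd : (3 : ℤ) ∣ a
    · obtain ⟨a', rfl, ha'⟩ := sqf a ha hd
      obtain ⟨b', rfl, hb'⟩ := sqf b hb ((c2 h).1 hd)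
      have h13 := hall (-13) (by norm_num)
      push_cast at h13 ⊢
      exact p5 h13 (hall a' ha') (hall b' hb')
    · have hd' : ¬ (3 : ℤ) ∣ b := fun h4 => hd ((c2 h).2 h4)
      exact p1 h3 (hall a hd) (hall b hd')

end

end Pool.Agent.N286.K15
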