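import Pool.Agent.N286.K15.Aux3
import Pool.Agent.N875.K15.Stm

/-!
# Project K15 (helper875): sufficient condition at the places over `3`

By helper286.
-/

set_option autoImplicit false

open NumberField IsDedekindDomain

namespace Pool.Agent.N286.K15

/-- **K15-3U** -/
theorem t_3U : Pool.Agent.N875.K15.S_3U := by
  intro m hm _ K _ _ r hQ w h3 a b ha hb hC
  obtain ⟨x, y, h1, h2, h4, h5⟩ := core h3 hm hQ.hr ha hb hC.1 hC.2
  refine ⟨x, y, h1, ?_, ?_, ?_⟩
  · rw [h2]
    push_cast
    ring
  · have : x - ((0 : ℤ) : w.adicCompletion K) = x := by push_cast; ring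
    rw [this]
    exact h4
  · have : x - ((-9 : ℤ) : w.adicCompletion K) = x + 9 := by push_cast; ring
    rw [this]
    exact h5

end Pool.Agent.N286.K15
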